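import Pool.Agent.NH51.BF.Triple
import Pool.Agent.NH51.BF.Count

/-!
# Points at which several linear forms have small radicals
-/

set_option autoImplicit false

namespace Pool.Agent.NH51.PF

open Finset Pool.Agent.W221.ABC7 Pool.Agent.NH51.BF

variable {D : ℕ}

/-- pairwise not proportional -/
structure Ind (S : Forms D) : Prop where
  indep : ∀ i j, i ≠ j → S.p i * S.q j - S.p j * S.q i ≠ 0
  ne_zero : ∀ j, S.k j ≠ 0

theorem bad_ne_zero {S : Forms D} (h : Ind S) : S.bad ≠ 0 := by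
  unfold Forms.bad
  refine mul_ne_zero (mul_ne_zero (mul_ne_zero ?_ ?_) ?_) (prod_ne_zero_iff.2 fun ij _ => ?_)
  · exact Int.natAbs_ne_zero.2 (h.ne_zero 0)
  · exact Int.natAbs_ne_zero.2 (h.ne_zero 1)
  · exact Int.natAbs_ne_zero.2 (h.ne_zero 2)
  · split_ifs with hij
    · exact one_ne_zero
    · exact Int.natAbs_ne_zero.2 (h.indep _ _ hij)

theorem det_le {S : Forms D} (h : Ind S) {i j : Fin D} (hij : i ≠ j) :
    (S.det i j).natAbs ≤ S.bad :=
  Nat.le_of_dvd (Nat.pos_of_ne_zero (bad_ne_zero h)) (det_dvd_bad S hij)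

theorem M_le {S : Forms D} (h : Ind S) {i j : Fin D} (hij : i ≠ j) (x y : ℤ) :
    max x.natAbs y.natAbs ≤ S.A0 * ((S.L i x y).natAbs + (S.L j x y).natAbs) := by
  have hd : 1 ≤ (S.det i j).natAbs := Int.natAbs_pos.2 (h.indep i j hij)
  have hi := coeff_le S i
  have hj := coeff_le S j
  refine max_le ?_ ?_
  · have h1 := congrArg Int.natAbs (det_x S i j x y)
    rw [Int.natAbs_mul] at h1
    calc x.natAbs ≤ (S.det i j).natAbs * x.natAbs := Nat.le_mul_of_pos_left _ hd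
      _ = (S.q j * S.L i x y - S.q i * S.L j x y).natAbs := h1
      _ ≤ (S.q j * S.L i x y).natAbs + (S.q i * S.L j x y).natAbs := Int.natAbs_sub_le _ _
      _ = (S.q j).natAbs * (S.L i x y).natAbs + (S.q i).natAbs * (S.L j x y).natAbs := by
          rw [Int.natAbs_mul, Int.natAbs_mul]
      _ ≤ S.A0 * (S.L i x y).natAbs + S.A0 * (S.L j x y).natAbs := by
          gcongr <;> omega
      _ = _ := by ring
  · have h1 := congrArg Int.natAbs (det_y S i j x y)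
    rw [Int.natAbs_mul] at h1
    calc y.natAbs ≤ (S.det i j).natAbs * y.natAbs := Nat.le_mul_of_pos_left _ hd
      _ = (S.p i * S.L j x y - S.p j * S.L i x y).natAbs := h1
      _ ≤ (S.p i * S.L j x y).natAbs + (S.p j * S.L i x y).natAbs := Int.natAbs_sub_le _ _
      _ = (S.p i).natAbs * (S.L j x y).natAbs + (S.p j).natAbs * (S.L i x y).natAbs := by
          rw [Int.natAbs_mul, Int.natAbs_mul]
      _ ≤ S.A0 * (S.L j x y).natAbs + S.A0 * (S.L i x y).natAbs := by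
          gcongr <;> omega
      _ = _ := by ring

/-- the abc-triple of three of the linear forms -/
theorem linear_triple {S : Forms D} (h : Ind S) {x y : ℤ} (hxy : IsCoprime x y)
    {i j k : Fin D} (hij : i ≠ j) (hjk : j ≠ k) (hik : i ≠ k) (hL : ∀ i, S.L i x y ≠ 0) :
    ∃ (t : ℕ × ℕ × ℕ) (m : ℕ) (s₁ s₂ : Fin 3 × Bool), m ≤ S.bad ^ 3 ∧
      0 < t.1 ∧ 0 < t.2.1 ∧ Nat.Coprime t.1 t.2.1 ∧ t.1 + t.2.1 = t.2.2 ∧
      S.det j k * S.L i x y = m * val s₁ t ∧ S.det k i * S.L j x y = m * val s₂ t ∧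
      rad (t.1 * t.2.1 * t.2.2) ≤ S.bad ^ 3 *
        (rad (S.L i x y).natAbs * rad (S.L j x y).natAbs * rad (S.L k x y).natAbs) ∧
      max x.natAbs y.natAbs ≤ 2 * S.A0 * S.bad ^ 3 * t.2.2 ∧
      t.2.2 ≤ 2 * S.bad * S.A0 * max x.natAbs y.natAbs := by
  have dij : S.det i j ≠ 0 := h.indep i j hij
  have djk : S.det j k ≠ 0 := h.indep j k hjk
  have dki : S.det k i ≠ 0 := h.indep k i hik.symm
  obtain ⟨t, m, s₁, s₂, hm0, hmA, hmB, ht1, ht2, hco, hsum, hA, hB, hdvd, hA1, hB1, hw⟩ :=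
    exists_triple (mul_ne_zero djk (hL i)) (mul_ne_zero dki (hL j)) (mul_ne_zero dij (hL k))
      (plucker S i j k x y)
  have hbad := bad_ne_zero h
  have hm : m ≤ S.bad ^ 3 := by
    have h1 : (m : ℤ) ∣ S.det j k * S.det k i * S.det i j := by
      refine dvd_of_mul hxy ?_ ?_
      · have e : S.det j k * S.det k i * S.det i j * x = (S.q j * S.det k i) *
            (S.det j k * S.L i x y) - (S.q i * S.det j k) * (S.det k i * S.L j x y) := by
          linear_combination (S.det j k * S.det k i) * det_x S i j x y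
        rw [e]
        exact dvd_sub (Dvd.dvd.mul_left hmA _) (Dvd.dvd.mul_left hmB _)
      · have e : S.det j k * S.det k i * S.det i j * y = (S.p i * S.det j k) *
            (S.det k i * S.L j x y) - (S.p j * S.det k i) * (S.det j k * S.L i x y) := by
          linear_combination (S.det j k * S.det k i) * det_y S i j x y
        rw [e]
        exact dvd_sub (Dvd.dvd.mul_left hmB _) (Dvd.dvd.mul_left hmA _)
    have h2 := Nat.le_of_dvd (Int.natAbs_pos.2 (mul_ne_zero (mul_ne_zero djk dki) dij))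
      (Int.natCast_dvd.1 h1)
    rw [Int.natAbs_mul, Int.natAbs_mul] at h2
    calc m ≤ (S.det j k).natAbs * (S.det k i).natAbs * (S.det i j).natAbs := h2
      _ ≤ S.bad * S.bad * S.bad :=
          Nat.mul_le_mul (Nat.mul_le_mul (det_le h hjk) (det_le h hik.symm)) (det_le h hij)
      _ = S.bad ^ 3 := by ring
  have nA : (S.det j k * S.L i x y).natAbs = (S.det j k).natAbs * (S.L i x y).natAbs :=
    Int.natAbs_mul _ _
  have nB : (S.det k i * S.L j x y).natAbs = (S.det k i).natAbs * (S.L j x y).natAbs :=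
    Int.natAbs_mul _ _
  have nC : (S.det i j * S.L k x y).natAbs = (S.det i j).natAbs * (S.L k x y).natAbs :=
    Int.natAbs_mul _ _
  have pjk : 1 ≤ (S.det j k).natAbs := Int.natAbs_pos.2 djk
  have pki : 1 ≤ (S.det k i).natAbs := Int.natAbs_pos.2 dki
  refine ⟨t, m, s₁, s₂, hm, ht1, ht2, hco, hsum, hA, hB, ?_, ?_, ?_⟩
  · have hne : (S.det j k * S.L i x y).natAbs * (S.det k i * S.L j x y).natAbs *
        (S.det i j * S.L k x y).natAbs ≠ 0 := by
      refine mul_ne_zero (mul_ne_zero ?_ ?_) ?_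
      · exact Int.natAbs_ne_zero.2 (mul_ne_zero djk (hL i))
      · exact Int.natAbs_ne_zero.2 (mul_ne_zero dki (hL j))
      · exact Int.natAbs_ne_zero.2 (mul_ne_zero dij (hL k))
    have h1 := rad_dvd_le hdvd hne
    have rr : ∀ {a b : Fin D}, a ≠ b → rad (S.det a b).natAbs ≤ S.bad := fun {a b} hab =>
      (rad_le (Int.natAbs_ne_zero.2 (h.indep a b hab))).trans (det_le h hab)
    rw [nA, nB, nC] at h1
    calc rad (t.1 * t.2.1 * t.2.2) ≤ _ := h1
      _ ≤ rad ((S.det j k).natAbs * (S.L i x y).natAbs * ((S.det k i).natAbs * (S.L j x y).natAbs)) *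
          rad ((S.det i j).natAbs * (S.L k x y).natAbs) := rad_mul_le _ _
      _ ≤ (rad ((S.det j k).natAbs * (S.L i x y).natAbs) *
          rad ((S.det k i).natAbs * (S.L j x y).natAbs)) *
          rad ((S.det i j).natAbs * (S.L k x y).natAbs) :=
          Nat.mul_le_mul_right _ (rad_mul_le _ _)
      _ ≤ ((rad (S.det j k).natAbs * rad (S.L i x y).natAbs) *
          (rad (S.det k i).natAbs * rad (S.L j x y).natAbs)) *
          (rad (S.det i j).natAbs * rad (S.L k x y).natAbs) :=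
          Nat.mul_le_mul (Nat.mul_le_mul (rad_mul_le _ _) (rad_mul_le _ _)) (rad_mul_le _ _)
      _ ≤ ((S.bad * rad (S.L i x y).natAbs) * (S.bad * rad (S.L j x y).natAbs)) *
          (S.bad * rad (S.L k x y).natAbs) :=
          Nat.mul_le_mul (Nat.mul_le_mul (Nat.mul_le_mul_right _ (rr hjk))
            (Nat.mul_le_mul_right _ (rr hik.symm))) (Nat.mul_le_mul_right _ (rr hij))
      _ = _ := by ring
  · have h1 := M_le h hij x y
    have h2 : (S.L i x y).natAbs ≤ t.2.2 * m := by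
      refine le_trans ?_ hA1
      rw [nA]; exact Nat.le_mul_of_pos_left _ pjk
    have h3 : (S.L j x y).natAbs ≤ t.2.2 * m := by
      refine le_trans ?_ hB1
      rw [nB]; exact Nat.le_mul_of_pos_left _ pki
    calc max x.natAbs y.natAbs ≤ S.A0 * ((S.L i x y).natAbs + (S.L j x y).natAbs) := h1
      _ ≤ S.A0 * (t.2.2 * m + t.2.2 * m) := Nat.mul_le_mul_left _ (Nat.add_le_add h2 h3)
      _ = 2 * S.A0 * m * t.2.2 := by ring
      _ ≤ 2 * S.A0 * S.bad ^ 3 * t.2.2 := by gcongr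
  · have h2 := L_le S i (x := x) (y := y) (le_max_left _ _) (le_max_right _ _)
    have h3 := L_le S j (x := x) (y := y) (le_max_left _ _) (le_max_right _ _)
    calc t.2.2 ≤ (S.det j k).natAbs * (S.L i x y).natAbs +
          (S.det k i).natAbs * (S.L j x y).natAbs := by rw [← nA, ← nB]; exact hw
      _ ≤ S.bad * (S.A0 * max x.natAbs y.natAbs) + S.bad * (S.A0 * max x.natAbs y.natAbs) :=
          Nat.add_le_add (Nat.mul_le_mul (det_le h hjk) h2) (Nat.mul_le_mul (det_le h hik.symm) h3)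
      _ = _ := by ring

theorem rel_unique {S : Forms D} (h : Ind S) {m : ℕ} {l : Lb D m}
    {t : ℕ × ℕ × ℕ} {z z' : ℤ × ℤ} (hz : Rel S l t z) (hz' : Rel S l t z') : z = z' := by
  obtain ⟨⟨i, j, k⟩, s₁, s₂, n⟩ := l
  obtain ⟨x, y⟩ := z
  obtain ⟨x', y'⟩ := z'
  obtain ⟨hij, hjk, hik, h1, h2⟩ := hz
  obtain ⟨-, -, -, h1', h2'⟩ := hz'
  simp only at hij hjk hik h1 h2 h1' h2'
  have dij : S.det i j ≠ 0 := h.indep i j hij
  have djk : S.det j k ≠ 0 := h.indep j k hjk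
  have dki : S.det k i ≠ 0 := h.indep k i (fun h => hik h.symm)
  have e1 : S.L i x y = S.L i x' y' := mul_left_cancel₀ djk (h1.trans h1'.symm)
  have e2 : S.L j x y = S.L j x' y' := mul_left_cancel₀ dki (h2.trans h2'.symm)
  have e3 : x = x' := mul_left_cancel₀ dij (by rw [det_x, det_x, e1, e2])
  have e4 : y = y' := mul_left_cancel₀ dij (by rw [det_y, det_y, e1, e2])
  rw [e3, e4]

/-- the points with small radicals of the linear forms -/
def Sm (S : Forms D) (K e : ℝ) (N : ℕ) : Set (ℤ × ℤ) :=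
  {z | IsCoprime z.1 z.2 ∧ z.1.natAbs ≤ N ∧ z.2.natAbs ≤ N ∧ (∀ i, S.L i z.1 z.2 ≠ 0) ∧
    ((∏ i, rad (S.L i z.1 z.2).natAbs : ℕ) : ℝ) ≤ K * ((max z.1.natAbs z.2.natAbs : ℕ) : ℝ) ^ e}

theorem sm_finite (S : Forms D) (K e : ℝ) (N : ℕ) : (Sm S K e N).Finite := by
  refine Set.Finite.subset (Finset.finite_toSet
    (Finset.Icc (-(N : ℤ)) N ×ˢ Finset.Icc (-(N : ℤ)) N)) ?_
  rintro ⟨x, y⟩ ⟨-, h1, h2, -⟩
  simp only at h1 h2
  rw [Finset.mem_coe, Finset.mem_product, Finset.mem_Icc, Finset.mem_Icc]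
  simp only
  omega

/-- the constant of the next lemma -/
noncomputable def K4' (S : Forms D) (K e : ℝ) : ℝ :=
  (S.bad : ℝ) ^ 3 * (K ^ (3 / (D : ℝ)) *
    (2 * S.A0 * S.bad ^ 3 : ℝ) ^ (3 * e / (D : ℝ)))

theorem exists_rel {S : Forms D} (h : Ind S) (hD : 3 ≤ D) {K e : ℝ} (hK : 0 < K)
    (he : 0 < e) {N : ℕ} {z : ℤ × ℤ} (hz : z ∈ Sm S K e N) :
    ∃ (l : Lb D (S.bad ^ 3 + 1)) (t : ℕ × ℕ × ℕ),
      t ∈ ExcB (K4' S K e) (3 * e / (D : ℝ)) (2 * S.bad * S.A0 * N) ∧ Rel S l t z := by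
  obtain ⟨x, y⟩ := z
  obtain ⟨hxy, hx, hy, hL, h1⟩ := hz
  simp only at hxy hx hy hL h1
  set M : ℕ := max x.natAbs y.natAbs with hM
  obtain ⟨i, j, k, hij, hjk, hik, h2⟩ :=
    three_small (fun i => rad (S.L i x y).natAbs) (fun i => rad_pos _) hD
  set r : ℕ := rad (S.L i x y).natAbs * rad (S.L j x y).natAbs * rad (S.L k x y).natAbs with hr'
  have h3 : (r : ℝ) ^ D ≤ (K * (M : ℝ) ^ e) ^ 3 := by
    calc (r : ℝ) ^ D = ((r ^ D : ℕ) : ℝ) := by push_cast; ring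
      _ ≤ (((∏ l, rad (S.L l x y).natAbs) ^ 3 : ℕ) : ℝ) := by exact_mod_cast h2
      _ = ((∏ l, rad (S.L l x y).natAbs : ℕ) : ℝ) ^ 3 := by push_cast; ring
      _ ≤ _ := pow_le_pow_left₀ (Nat.cast_nonneg _) h1 3
  have h4 := root_le (D := D) (Nat.cast_nonneg r) hK (Nat.cast_nonneg M) (by omega) h3
  obtain ⟨t, m, s₁, s₂, hm1, ht1, ht2, hco, hsum, hA, hB, hrad, hMt, htM⟩ :=
    linear_triple h hxy hij hjk hik hL
  have hbad : (0 : ℝ) < S.bad := by exact_mod_cast Nat.pos_of_ne_zero (bad_ne_zero h)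
  have hA0 : (0 : ℝ) < S.A0 := by exact_mod_cast A0_pos S
  refine ⟨((i, j, k), s₁, s₂, ⟨m, by omega⟩), t, ⟨ht1, ht2, hco, hsum, ?_, ?_⟩, hij, hjk, hik,
    hA, hB⟩
  · calc t.2.2 ≤ 2 * S.bad * S.A0 * M := htM
      _ ≤ 2 * S.bad * S.A0 * N := Nat.mul_le_mul_left _ (max_le hx hy)
  · have e0 : 0 ≤ 3 * e / (D : ℝ) := by positivity
    have h5 : (rad (t.1 * t.2.1 * t.2.2) : ℝ) ≤ (S.bad : ℝ) ^ 3 * (r : ℝ) := by exact_mod_cast hrad
    have h6 : (M : ℝ) ≤ (2 * S.A0 * S.bad ^ 3 : ℝ) * (t.2.2 : ℝ) := by exact_mod_cast hMt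
    change (rad (t.1 * t.2.1 * t.2.2) : ℝ) ≤ _
    calc (rad (t.1 * t.2.1 * t.2.2) : ℝ) ≤ (S.bad : ℝ) ^ 3 * (r : ℝ) := h5
      _ ≤ (S.bad : ℝ) ^ 3 * (K ^ (3 / (D : ℝ)) * (M : ℝ) ^ (3 * e / (D : ℝ))) := by gcongr
      _ ≤ (S.bad : ℝ) ^ 3 * (K ^ (3 / (D : ℝ)) *
          ((2 * S.A0 * S.bad ^ 3 : ℝ) * (t.2.2 : ℝ)) ^ (3 * e / (D : ℝ))) := by
          have h7 : (M : ℝ) ^ (3 * e / (D : ℝ)) ≤
              ((2 * S.A0 * S.bad ^ 3 : ℝ) * (t.2.2 : ℝ)) ^ (3 * e / (D : ℝ)) :=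
            Real.rpow_le_rpow (Nat.cast_nonneg _) h6 e0
          have h8 : 0 ≤ K ^ (3 / (D : ℝ)) := Real.rpow_nonneg hK.le _
          exact mul_le_mul_of_nonneg_left (mul_le_mul_of_nonneg_left h7 h8) (by positivity)
      _ = _ := by
          unfold K4'
          rw [Real.mul_rpow (by positivity) (Nat.cast_nonneg _)]
          ring

/-- **The count.** -/
theorem count_core {S : Forms D} (h : Ind S) (hD : 3 ≤ D) {K e : ℝ}
    (hK : 0 < K) (he : 0 < e) {ε : ℝ} (hε : 0 < ε) :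
    ∃ C : ℝ, 0 < C ∧ ∀ N : ℕ, 1 ≤ N →
      ((Sm S K e N).ncard : ℝ) ≤ C * (N : ℝ) ^ (Fx (3 * e / (D : ℝ)) + ε) := by
  classical
  set lam : ℝ := 3 * e / (D : ℝ) with hlam
  have hD' : (0 : ℝ) < D := by exact_mod_cast (by omega : 0 < D)
  have hl : 0 < lam := by rw [hlam]; positivity
  have hbad : 0 < S.bad := Nat.pos_of_ne_zero (bad_ne_zero h)
  have hbad' : (0 : ℝ) < S.bad := by exact_mod_cast hbad
  have hA0 : (0 : ℝ) < S.A0 := by exact_mod_cast A0_pos S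
  obtain ⟨C, hC⟩ := count_FxB (K4' S K e) lam ε hl hε
  have hex : 0 < Fx lam + ε := by have := Fx_pos lam hl; linarith
  refine ⟨(Fintype.card (Lb D (S.bad ^ 3 + 1)) : ℝ) *
    (|C| * (2 * S.bad * S.A0 : ℝ) ^ (Fx lam + ε)) + 1, by positivity, fun N hN => ?_⟩
  have hN' : (1 : ℝ) ≤ N := by exact_mod_cast hN
  set X : ℕ := 2 * S.bad * S.A0 * N with hX
  have hX1 : 1 ≤ X := by
    rw [hX]
    have := A0_pos S
    have : 0 < 2 * S.bad * S.A0 * N := by positivity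
    omega
  set G : Lb D (S.bad ^ 3 + 1) × (ℕ × ℕ × ℕ) → ℤ × ℤ := fun lt =>
    if hh : ∃ z, Rel S lt.1 lt.2 z then hh.choose else (0, 0) with hG
  have hsub : Sm S K e N ⊆
      G '' ((Set.univ : Set (Lb D (S.bad ^ 3 + 1))) ×ˢ ExcB (K4' S K e) lam X) := by
    intro z hz
    obtain ⟨l, t, ht, hrel⟩ := exists_rel h hD hK he hz
    refine ⟨(l, t), ⟨Set.mem_univ _, ht⟩, ?_⟩
    have hh : ∃ z, Rel S l t z := ⟨z, hrel⟩
    have e : G (l, t) = hh.choose := by rw [hG]; exact dif_pos hh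
    rw [e]
    exact rel_unique h hh.choose_spec hrel
  have hfin : ((Set.univ : Set (Lb D (S.bad ^ 3 + 1))) ×ˢ ExcB (K4' S K e) lam X).Finite :=
    Set.finite_univ.prod (excB_finite _ _ _)
  have h1 : (Sm S K e N).ncard ≤ Fintype.card (Lb D (S.bad ^ 3 + 1)) *
      (ExcB (K4' S K e) lam X).ncard := by
    calc (Sm S K e N).ncard ≤ _ := Set.ncard_le_ncard hsub (hfin.image G)
      _ ≤ ((Set.univ : Set (Lb D (S.bad ^ 3 + 1))) ×ˢ ExcB (K4' S K e) lam X).ncard :=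
          Set.ncard_image_le hfin
      _ = _ := by rw [Set.ncard_prod, Set.ncard_univ, Nat.card_eq_fintype_card]
  have h2 := hC X hX1
  have h3 : (X : ℝ) ^ (Fx lam + ε) = (2 * S.bad * S.A0 : ℝ) ^ (Fx lam + ε) *
      (N : ℝ) ^ (Fx lam + ε) := by
    rw [hX]
    push_cast
    rw [Real.mul_rpow (by positivity) (by positivity)]
  calc ((Sm S K e N).ncard : ℝ) ≤ (Fintype.card (Lb D (S.bad ^ 3 + 1)) : ℝ) *
        ((ExcB (K4' S K e) lam X).ncard : ℝ) := by exact_mod_cast h1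
    _ ≤ (Fintype.card (Lb D (S.bad ^ 3 + 1)) : ℝ) * (|C| * (X : ℝ) ^ (Fx lam + ε)) := by
        refine mul_le_mul_of_nonneg_left (h2.trans ?_) (Nat.cast_nonneg _)
        exact mul_le_mul_of_nonneg_right (le_abs_self C) (by positivity)
    _ = ((Fintype.card (Lb D (S.bad ^ 3 + 1)) : ℝ) *
        (|C| * (2 * S.bad * S.A0 : ℝ) ^ (Fx lam + ε))) * (N : ℝ) ^ (Fx lam + ε) := by
        rw [h3]; ring
    _ ≤ _ := by
        refine mul_le_mul_of_nonneg_right ?_ (by positivity)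
        linarith

end Pool.Agent.NH51.PF
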