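import Pool.Agent.NH51.PF.Main

/-!
# Examples: the identities `x (x - y) ... (x - (d - 1) y) + y ^ d = F`
-/

set_option autoImplicit false

namespace Pool.Agent.NH51.PF

open Finset Polynomial

theorem root_dvd {d : ℕ} {f : ℤ[X]} (hf : f.natDegree ≤ d) {r : ℤ} (hr : f.eval r = 0) (x y : ℤ) :
    x - r * y ∣ form d f x y := by
  have h1 : form d f (r * y) y = 0 := by
    have h2 : form d f (r * y) y = y ^ d * f.eval r := by
      unfold form
      rw [eval_eq_sum_range' (show f.natDegree < d + 1 by omega), mul_sum]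
      refine sum_congr rfl fun i hi => ?_
      rw [mem_range] at hi
      have h3 : y ^ d = y ^ i * y ^ (d - i) := by rw [← pow_add]; congr 1; omega
      rw [h3, mul_pow]
      ring
    rw [h2, hr, mul_zero]
  have h4 : form d f x y = form d f x y - form d f (r * y) y := by rw [h1, sub_zero]
  rw [h4]
  unfold form
  rw [← sum_sub_distrib]
  refine dvd_sum fun i _ => ?_
  rw [show f.coeff i * x ^ i * y ^ (d - i) - f.coeff i * (r * y) ^ i * y ^ (d - i) =
    (x ^ i - (r * y) ^ i) * (f.coeff i * y ^ (d - i)) by ring]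
  exact Dvd.dvd.mul_right (sub_dvd_pow_sub_pow _ _ _) _

theorem form_one {d : ℕ} (hd : 1 ≤ d) (x y : ℤ) : y ∣ form d 1 x y := by
  unfold form
  refine dvd_sum fun i hi => ?_
  rcases eq_or_ne i 0 with rfl | hi0
  · rw [Nat.sub_zero]
    exact Dvd.dvd.mul_left (dvd_pow_self _ (by omega)) _
  · rw [coeff_one, if_neg hi0, zero_mul, zero_mul]
    exact dvd_zero _

/-- the product -/
noncomputable def pr (d : ℕ) : ℤ[X] := ∏ i ∈ range d, (X - C (i : ℤ))

theorem pr_monic (d : ℕ) : (pr d).Monic := monic_prod_of_monic _ _ fun _ _ => monic_X_sub_C _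

theorem pr_deg (d : ℕ) : (pr d).natDegree = d := by
  unfold pr
  rw [natDegree_prod_of_monic _ _ fun _ _ => monic_X_sub_C _,
    sum_congr rfl fun i _ => natDegree_X_sub_C ((i : ℕ) : ℤ), sum_const, card_range, smul_eq_mul,
    mul_one]

/-- the example -/
noncomputable def ex (d : ℕ) : Fam (d + 1) where
  f := ![pr d, 1, pr d + 1]
  p := Fin.cons 0 (fun _ => 1)
  q := Fin.cons 1 (fun i => -(i : ℤ))
  s := Fin.cons 1 (fun _ => 0)

theorem ex_id {d : ℕ} (hd : 1 ≤ d) : (ex d).IsIdentity d where
  degree := by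
    intro j
    fin_cases j
    · exact (pr_deg d).le
    · change (1 : ℤ[X]).natDegree ≤ d
      simp
    · change (pr d + 1).natDegree ≤ d
      refine (natDegree_add_le _ _).trans ?_
      simp [pr_deg d]
  sum := rfl
  coprime := by
    change IsCoprime ((pr d).map (Int.castRingHom ℚ)) ((1 : ℤ[X]).map (Int.castRingHom ℚ))
    rw [Polynomial.map_one]
    exact isCoprime_one_right
  infty := by
    left
    change (pr d).coeff d ≠ 0
    have h := (pr_monic d).coeff_natDegree
    rw [pr_deg d] at h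
    rw [h]
    exact one_ne_zero
  indep := by
    intro i j
    refine Fin.cases ?_ (fun i => ?_) i
    · refine Fin.cases (fun h => absurd rfl h) (fun j _ => ?_) j
      change (0 : ℤ) * (-(j : ℤ)) - 1 * 1 ≠ 0
      norm_num
    · refine Fin.cases (fun _ => ?_) (fun j h => ?_) j
      · change (1 : ℤ) * 1 - 0 * (-(i : ℤ)) ≠ 0
        norm_num
      · change (1 : ℤ) * (-((j : ℕ) : ℤ)) - 1 * (-((i : ℕ) : ℤ)) ≠ 0
        intro h1
        apply h
        congr 1
        apply Fin.ext
        omega
  dvd := by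
    intro i x y
    refine Fin.cases ?_ (fun i => ?_) i
    · change (0 : ℤ) * x + 1 * y ∣ form d 1 x y
      rw [zero_mul, zero_add, one_mul]
      exact form_one hd x y
    · change (1 : ℤ) * x + -((i : ℕ) : ℤ) * y ∣ form d (pr d) x y
      rw [show (1 : ℤ) * x + -((i : ℕ) : ℤ) * y = x - ((i : ℕ) : ℤ) * y by ring]
      refine root_dvd (pr_deg d).le ?_ x y
      unfold pr
      rw [eval_prod]
      exact prod_eq_zero (mem_range.2 i.isLt) (by simp)

end Pool.Agent.NH51.PF
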