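import Mathlib

/-!
# Binary forms: common divisors and sizes of the values
-/

set_option autoImplicit false

namespace Pool.Agent.NH51.PF

open Finset Polynomial

/-- The value at `(x, y)` of the binary form `y ^ d * f (x / y)` of degree `d`. -/
noncomputable def form (d : ℕ) (f : ℤ[X]) (x y : ℤ) : ℤ :=
  ∑ i ∈ range (d + 1), f.coeff i * x ^ i * y ^ (d - i)

theorem form_eval {d : ℕ} {f : ℤ[X]} (hf : f.natDegree ≤ d) {x y : ℤ} (hy : y ≠ 0) :
    (form d f x y : ℚ) = (y : ℚ) ^ d * (f.map (Int.castRingHom ℚ)).eval ((x : ℚ) / y) := by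
  have hy' : (y : ℚ) ≠ 0 := by exact_mod_cast hy
  have h1 : (f.map (Int.castRingHom ℚ)).natDegree < d + 1 :=
    lt_of_le_of_lt (natDegree_map_le) (by omega)
  rw [eval_eq_sum_range' h1, mul_sum]
  unfold form
  push_cast
  refine sum_congr rfl fun i hi => ?_
  rw [mem_range] at hi
  rw [coeff_map, div_pow]
  have h2 : (y : ℚ) ^ d = (y : ℚ) ^ i * (y : ℚ) ^ (d - i) := by
    rw [← pow_add]; congr 1; omega
  rw [h2, eq_intCast]
  field_simp

theorem form_top (d : ℕ) (f : ℤ[X]) (x y : ℤ) :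
    ∃ W : ℤ, form d f x y = f.coeff d * x ^ d + y * W := by
  refine ⟨∑ i ∈ range d, f.coeff i * x ^ i * y ^ (d - i - 1), ?_⟩
  unfold form
  rw [sum_range_succ, Nat.sub_self, pow_zero, mul_one, add_comm, mul_sum]
  congr 1
  refine sum_congr rfl fun i hi => ?_
  rw [mem_range] at hi
  have h2 : d - i = (d - i - 1) + 1 := by omega
  conv_lhs => rw [h2, pow_succ]
  ring

/-- clearing the denominators -/
theorem bezout {f g : ℤ[X]}
    (h : IsCoprime (f.map (Int.castRingHom ℚ)) (g.map (Int.castRingHom ℚ))) :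
    ∃ (U V : ℤ[X]) (r : ℤ), r ≠ 0 ∧ U * f + V * g = C r := by
  obtain ⟨u, v, huv⟩ := h
  obtain ⟨b, hb⟩ := IsLocalization.integerNormalization_map_to_map (nonZeroDivisors ℤ) u
  obtain ⟨c, hc⟩ := IsLocalization.integerNormalization_map_to_map (nonZeroDivisors ℤ) v
  refine ⟨C (c : ℤ) * IsLocalization.integerNormalization (nonZeroDivisors ℤ) u,
    C (b : ℤ) * IsLocalization.integerNormalization (nonZeroDivisors ℤ) v, (b : ℤ) * c,
    mul_ne_zero (nonZeroDivisors.ne_zero b.2) (nonZeroDivisors.ne_zero c.2), ?_⟩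
  refine Polynomial.map_injective (Int.castRingHom ℚ) Int.cast_injective ?_
  have hb' : (IsLocalization.integerNormalization (nonZeroDivisors ℤ) u).map (Int.castRingHom ℚ) =
      (b : ℤ) • u := hb
  have hc' : (IsLocalization.integerNormalization (nonZeroDivisors ℤ) v).map (Int.castRingHom ℚ) =
      (c : ℤ) • v := hc
  rw [Polynomial.map_add, Polynomial.map_mul, Polynomial.map_mul, Polynomial.map_mul,
    Polynomial.map_mul, hb', hc', Polynomial.map_C, Polynomial.map_C, Polynomial.map_C, map_mul,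
    C_mul, zsmul_eq_mul, zsmul_eq_mul]
  simp only [eq_intCast, ← C_eq_intCast] at *
  linear_combination (C (((b : ℤ) : ℚ)) * C (((c : ℤ) : ℚ))) * huv

theorem dvd_of_mul {n z x y : ℤ} (hxy : IsCoprime x y) (h1 : n ∣ z * x) (h2 : n ∣ z * y) : n ∣ z := by
  obtain ⟨a, b, hab⟩ := hxy
  have h3 : z = a * (z * x) + b * (z * y) := by
    linear_combination (-z) * hab
  rw [h3]
  exact dvd_add (Dvd.dvd.mul_left h1 a) (Dvd.dvd.mul_left h2 b)

/-- the common divisors of the values of two coprime forms at coprime arguments are bounded -/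
theorem common {d : ℕ} {f g : ℤ[X]} (hf : f.natDegree ≤ d) (hg : g.natDegree ≤ d)
    (h : IsCoprime (f.map (Int.castRingHom ℚ)) (g.map (Int.castRingHom ℚ)))
    (hd : f.coeff d ≠ 0 ∨ g.coeff d ≠ 0) :
    ∃ R : ℤ, R ≠ 0 ∧ ∀ x y : ℤ, IsCoprime x y → ∀ n : ℤ, n ∣ form d f x y → n ∣ form d g x y →
      n ∣ R := by
  obtain ⟨U, V, r, hr, huv⟩ := bezout h
  set m : ℕ := max U.natDegree V.natDegree + 1 with hm
  have key : ∀ x y n : ℤ, n ∣ form d f x y → n ∣ form d g x y → n ∣ r * y ^ (m + d) := by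
    intro x y n h1 h2
    rcases eq_or_ne y 0 with rfl | hy
    · rw [zero_pow (by omega), mul_zero]
      exact dvd_zero n
    · have e : r * y ^ (m + d) = form m U x y * form d f x y + form m V x y * form d g x y := by
        have hU : U.natDegree ≤ m := by omega
        have hV : V.natDegree ≤ m := by omega
        have e1 := form_eval hf (x := x) hy
        have e2 := form_eval hg (x := x) hy
        have e3 := form_eval hU (x := x) hy
        have e4 := form_eval hV (x := x) hy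
        have e5 := congrArg (fun p : ℤ[X] => (p.map (Int.castRingHom ℚ)).eval ((x : ℚ) / y)) huv
        simp only [Polynomial.map_add, Polynomial.map_mul, eval_add, eval_mul, Polynomial.map_C,
          eval_C] at e5
        have e7 : (Int.castRingHom ℚ) r = (r : ℚ) := rfl
        rw [e7] at e5
        have e6 : ((r * y ^ (m + d) : ℤ) : ℚ) = ((form m U x y * form d f x y +
            form m V x y * form d g x y : ℤ) : ℚ) := by
          push_cast
          rw [e1, e2, e3, e4, pow_add, ← e5]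
          ring
        exact_mod_cast e6
      rw [e]
      exact dvd_add (Dvd.dvd.mul_left h1 _) (Dvd.dvd.mul_left h2 _)
  have fin : ∀ a : ℤ, a ≠ 0 → (∀ x y : ℤ, ∀ n : ℤ, n ∣ form d f x y → n ∣ form d g x y →
      ∃ W : ℤ, n ∣ a * x ^ d + y * W) → ∀ x y : ℤ, IsCoprime x y → ∀ n : ℤ, n ∣ form d f x y →
      n ∣ form d g x y → n ∣ r * a ^ (m + d) := by
    intro a ha hW x y hxy n h1 h2
    obtain ⟨W, hW⟩ := hW x y n h1 h2
    have h3 := key x y n h1 h2
    have h4 : n ∣ r * (a * x ^ d) ^ (m + d) := by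
      have h5 : (a * x ^ d + y * W) ∣ (a * x ^ d) ^ (m + d) - (-(y * W)) ^ (m + d) := by
        have := sub_dvd_pow_sub_pow (a * x ^ d) (-(y * W)) (m + d)
        rwa [sub_neg_eq_add] at this
      have h6 : n ∣ r * ((a * x ^ d) ^ (m + d) - (-(y * W)) ^ (m + d)) :=
        Dvd.dvd.mul_left (hW.trans h5) r
      have h7 : n ∣ r * (-(y * W)) ^ (m + d) := by
        have e : r * (-(y * W)) ^ (m + d) = (r * y ^ (m + d)) * (-W) ^ (m + d) := by
          rw [show -(y * W) = y * (-W) by ring, mul_pow]; ring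
        rw [e]
        exact Dvd.dvd.mul_right h3 _
      have h8 := dvd_add h6 h7
      rwa [show r * ((a * x ^ d) ^ (m + d) - (-(y * W)) ^ (m + d)) + r * (-(y * W)) ^ (m + d) =
        r * (a * x ^ d) ^ (m + d) by ring] at h8
    refine dvd_of_mul (x := (x ^ d) ^ (m + d)) (y := y ^ (m + d))
      ((hxy.pow_left).pow) ?_ ?_
    · rw [mul_assoc, ← mul_pow]; exact h4
    · rw [show r * a ^ (m + d) * y ^ (m + d) = (r * y ^ (m + d)) * a ^ (m + d) by ring]
      exact Dvd.dvd.mul_right h3 _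
  rcases hd with ha | ha
  · refine ⟨r * (f.coeff d) ^ (m + d), mul_ne_zero hr (pow_ne_zero _ ha), fin _ ha ?_⟩
    intro x y n h1 _
    obtain ⟨W, hW⟩ := form_top d f x y
    exact ⟨W, by rw [← hW]; exact h1⟩
  · refine ⟨r * (g.coeff d) ^ (m + d), mul_ne_zero hr (pow_ne_zero _ ha), fin _ ha ?_⟩
    intro x y n _ h2
    obtain ⟨W, hW⟩ := form_top d g x y
    exact ⟨W, by rw [← hW]; exact h2⟩

/-- the size of the values -/
theorem form_le (d : ℕ) (f : ℤ[X]) : ∃ K : ℝ, 0 < K ∧ ∀ x y : ℤ,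
    ((form d f x y).natAbs : ℝ) ≤ K * ((max x.natAbs y.natAbs : ℕ) : ℝ) ^ d := by
  refine ⟨∑ i ∈ range (d + 1), |(f.coeff i : ℝ)| + 1, by positivity, fun x y => ?_⟩
  set M : ℕ := max x.natAbs y.natAbs with hM
  have hx : |(x : ℝ)| ≤ M := by
    have h1 : x.natAbs ≤ M := le_max_left _ _
    have h2 : ((x.natAbs : ℕ) : ℝ) = |(x : ℝ)| := by rw [Nat.cast_natAbs]; push_cast; rfl
    rw [← h2]; exact_mod_cast h1
  have hy : |(y : ℝ)| ≤ M := by
    have h1 : y.natAbs ≤ M := le_max_right _ _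
    have h2 : ((y.natAbs : ℕ) : ℝ) = |(y : ℝ)| := by rw [Nat.cast_natAbs]; push_cast; rfl
    rw [← h2]; exact_mod_cast h1
  have e : (((form d f x y).natAbs : ℕ) : ℝ) = |(form d f x y : ℝ)| := by
    rw [Nat.cast_natAbs]; push_cast; rfl
  rw [e]
  unfold form
  push_cast
  calc |∑ i ∈ range (d + 1), (f.coeff i : ℝ) * (x : ℝ) ^ i * (y : ℝ) ^ (d - i)|
      ≤ ∑ i ∈ range (d + 1), |(f.coeff i : ℝ) * (x : ℝ) ^ i * (y : ℝ) ^ (d - i)| :=
        abs_sum_le_sum_abs _ _
    _ ≤ ∑ i ∈ range (d + 1), |(f.coeff i : ℝ)| * (M : ℝ) ^ d := by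
        refine sum_le_sum fun i hi => ?_
        rw [mem_range] at hi
        rw [abs_mul, abs_mul, abs_pow, abs_pow, mul_assoc]
        have h2 : (M : ℝ) ^ d = (M : ℝ) ^ i * (M : ℝ) ^ (d - i) := by
          rw [← pow_add]; congr 1; omega
        rw [h2]
        gcongr
    _ = (∑ i ∈ range (d + 1), |(f.coeff i : ℝ)|) * (M : ℝ) ^ d := by rw [sum_mul]
    _ ≤ _ := by
        have : (0 : ℝ) ≤ (M : ℝ) ^ d := by positivity
        nlinarith

end Pool.Agent.NH51.PF
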