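import Pool.Agent.NH51.PF.Main
import Pool.Agent.NH51.BF.Many

/-!
# Identities between binary forms: the number of the points
-/

set_option autoImplicit false

namespace Pool.Agent.NH51.PF

open Finset Polynomial Pool.Agent.NH51.BF

theorem zeros {d : ℕ} {f : ℤ[X]} (hf : f.natDegree ≤ d) (h0 : f ≠ 0) (N : ℕ) :
    ((Cop N).filter fun t => form d f (t.1 : ℤ) (t.2 : ℤ) = 0).card ≤ N * d := by
  classical
  have hm0 : f.map (Int.castRingHom ℚ) ≠ 0 := by
    rw [Ne, Polynomial.map_eq_zero_iff Int.cast_injective]; exact h0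
  have h1 : ((Cop N).filter fun t => form d f (t.1 : ℤ) (t.2 : ℤ) = 0).card ≤
      ((Icc 1 N) ×ˢ (f.map (Int.castRingHom ℚ)).roots.toFinset).card := by
    refine card_le_card_of_injOn (fun t : ℕ × ℕ => (t.2, (t.1 : ℚ) / (t.2 : ℚ))) ?_ ?_
    · intro t ht
      rw [mem_coe, mem_filter] at ht
      obtain ⟨ht1, ht2⟩ := ht
      unfold Cop at ht1
      rw [mem_filter, mem_product] at ht1
      have hy : (t.2 : ℤ) ≠ 0 := by
        have := (mem_Icc.1 ht1.1.2).1
        omega
      have h3 := form_eval hf (x := (t.1 : ℤ)) hy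
      rw [ht2, Int.cast_zero] at h3
      have hy' : ((t.2 : ℤ) : ℚ) ^ d ≠ 0 := pow_ne_zero _ (by exact_mod_cast hy)
      have h4 := (mul_eq_zero.1 h3.symm).resolve_left hy'
      rw [mem_coe, mem_product]
      refine ⟨ht1.1.2, ?_⟩
      rw [Multiset.mem_toFinset, mem_roots hm0]
      simpa using h4
    · intro t ht t' ht' h
      rw [mem_coe, mem_filter] at ht ht'
      have h1 := ht.1
      unfold Cop at h1
      rw [mem_filter, mem_product] at h1
      have hy : (t.2 : ℚ) ≠ 0 := by
        have := (mem_Icc.1 h1.1.2).1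
        exact_mod_cast (by omega : t.2 ≠ 0)
      simp only [Prod.mk.injEq] at h
      obtain ⟨e1, e2⟩ := h
      rw [← e1] at e2
      have e3 := (div_left_inj' hy).1 e2
      exact Prod.ext (by exact_mod_cast e3) e1
  refine h1.trans ?_
  rw [card_product, Nat.card_Icc, Nat.add_sub_cancel]
  refine Nat.mul_le_mul_left _ ?_
  calc (f.map (Int.castRingHom ℚ)).roots.toFinset.card ≤
        Multiset.card (f.map (Int.castRingHom ℚ)).roots := Multiset.toFinset_card_le _
    _ ≤ (f.map (Int.castRingHom ℚ)).natDegree := card_roots' _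
    _ ≤ f.natDegree := natDegree_map_le
    _ ≤ d := hf

variable {D : ℕ}

theorem f_ne_zero {S : Fam D} {d : ℕ} (hd : 1 ≤ d) (h : S.IsIdentity d) (j : Fin 3) :
    S.f j ≠ 0 := by
  have hunit : ∀ g : ℤ[X], IsUnit (g.map (Int.castRingHom ℚ)) → g.coeff d = 0 := by
    intro g hg
    have h1 := natDegree_eq_zero_of_isUnit hg
    have h2 : (g.map (Int.castRingHom ℚ)).coeff d = 0 :=
      coeff_eq_zero_of_natDegree_lt (by omega)
    rw [coeff_map, eq_intCast] at h2
    exact_mod_cast h2
  have hc := h.coprime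
  intro h0
  fin_cases j
  · change S.f 0 = 0 at h0
    have h1 : IsUnit ((S.f 1).map (Int.castRingHom ℚ)) := by
      rw [h0, Polynomial.map_zero] at hc
      exact isCoprime_zero_left.1 hc
    have h2 := hunit _ h1
    rcases h.infty with h3 | h3
    · exact h3 (by rw [h0, coeff_zero])
    · exact h3 h2
  · change S.f 1 = 0 at h0
    have h1 : IsUnit ((S.f 0).map (Int.castRingHom ℚ)) := by
      rw [h0, Polynomial.map_zero] at hc
      exact isCoprime_zero_right.1 hc
    have h2 := hunit _ h1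
    rcases h.infty with h3 | h3
    · exact h3 h2
    · exact h3 (by rw [h0, coeff_zero])
  · change S.f 2 = 0 at h0
    have h4 : S.f 1 = -S.f 0 := by
      have := h.sum
      rw [h0] at this
      linear_combination this
    rw [h4, Polynomial.map_neg, IsCoprime.neg_right_iff] at hc
    have h1 : IsUnit ((S.f 0).map (Int.castRingHom ℚ)) := isCoprime_self.1 hc
    have h2 := hunit _ h1
    rcases h.infty with h3 | h3
    · exact h3 h2
    · exact h3 (by rw [h4, coeff_neg, h2, neg_zero])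

theorem form_add (d : ℕ) (f g : ℤ[X]) (x y : ℤ) :
    form d f x y + form d g x y = form d (f + g) x y := by
  unfold form
  rw [← sum_add_distrib]
  refine sum_congr rfl fun i _ => ?_
  rw [coeff_add]
  ring

theorem card_good {S : Fam D} {d : ℕ} (hd : 1 ≤ d) (h : S.IsIdentity d) (N : ℕ) :
    (N : ℝ) ^ 2 / 4 - 3 * d * N ≤
      (((Cop N).filter fun t => ∀ j, form d (S.f j) (t.1 : ℤ) (t.2 : ℤ) ≠ 0).card : ℝ) := by
  classical
  have h1 : Cop N ⊆ ((Cop N).filter fun t => ∀ j, form d (S.f j) (t.1 : ℤ) (t.2 : ℤ) ≠ 0) ∪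
      (univ : Finset (Fin 3)).biUnion fun j =>
        (Cop N).filter fun t => form d (S.f j) (t.1 : ℤ) (t.2 : ℤ) = 0 := by
    intro t ht
    rw [mem_union]
    by_cases hall : ∀ j, form d (S.f j) (t.1 : ℤ) (t.2 : ℤ) ≠ 0
    · exact Or.inl (mem_filter.2 ⟨ht, hall⟩)
    · right
      push Not at hall
      obtain ⟨i, hi⟩ := hall
      exact mem_biUnion.2 ⟨i, mem_univ i, mem_filter.2 ⟨ht, hi⟩⟩
  have h2 := (card_le_card h1).trans (card_union_le _ _)
  have h3 : ((univ : Finset (Fin 3)).biUnion fun j =>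
      (Cop N).filter fun t => form d (S.f j) (t.1 : ℤ) (t.2 : ℤ) = 0).card ≤ 3 * (N * d) := by
    refine card_biUnion_le.trans ?_
    calc ∑ j : Fin 3, ((Cop N).filter fun t => form d (S.f j) (t.1 : ℤ) (t.2 : ℤ) = 0).card
        ≤ ∑ _j : Fin 3, N * d := sum_le_sum fun j _ => zeros (h.degree j) (f_ne_zero hd h j) N
      _ = 3 * (N * d) := by rw [sum_const, card_univ, Fintype.card_fin, smul_eq_mul]
  have h4 : (Cop N).card ≤
      ((Cop N).filter fun t => ∀ j, form d (S.f j) (t.1 : ℤ) (t.2 : ℤ) ≠ 0).card +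
        3 * (N * d) := by omega
  have h5 : ((Cop N).card : ℝ) ≤
      (((Cop N).filter fun t => ∀ j, form d (S.f j) (t.1 : ℤ) (t.2 : ℤ) ≠ 0).card : ℝ) +
        3 * (N * d) := by
    exact_mod_cast h4
  have h6 := card_cop N
  linarith

end Pool.Agent.NH51.PF
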