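import Pool.Agent.NH51.PF.Core
import Pool.Agent.NH51.PF.Form

/-!
# Identities between binary forms with linear factors: radicals of the linear factors
-/

set_option autoImplicit false

namespace Pool.Agent.NH51.PF

open Finset Polynomial Pool.Agent.NH51.BF Pool.Agent.W221.ABC7

/-- Three binary forms `y ^ d * f j (x / y)`, `j = 0, 1, 2`, with integer coefficients, and `D` linear forms
`p i * x + q i * y`, the linear form `i` belongs to the form `s i`. -/
structure Fam (D : ℕ) where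
  /-- the forms -/
  f : Fin 3 → ℤ[X]
  /-- the first coefficients of the linear forms -/
  p : Fin D → ℤ
  /-- the second coefficients of the linear forms -/
  q : Fin D → ℤ
  /-- the form to which the linear form belongs -/
  s : Fin D → Fin 3

variable {D : ℕ}

/-- The three forms are of degree `d`, the first two have sum the third one and no common factor; the `D`
linear forms are pairwise not proportional and the value of each of them divides the value of its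
form, for all integers `x`, `y`. -/
structure Fam.IsIdentity (S : Fam D) (d : ℕ) : Prop where
  degree : ∀ j, (S.f j).natDegree ≤ d
  sum : S.f 0 + S.f 1 = S.f 2
  coprime : IsCoprime ((S.f 0).map (Int.castRingHom ℚ)) ((S.f 1).map (Int.castRingHom ℚ))
  infty : (S.f 0).coeff d ≠ 0 ∨ (S.f 1).coeff d ≠ 0
  indep : ∀ i j, i ≠ j → S.p i * S.q j - S.p j * S.q i ≠ 0
  dvd : ∀ (i : Fin D) (x y : ℤ), S.p i * x + S.q i * y ∣ form d (S.f (S.s i)) x y

/-- `(a, b, c)` is, up to the order of its members, the triple of the absolute values of the three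
forms at `(x, y)`, divided by a common factor. -/
def Fam.Member (S : Fam D) (d : ℕ) (x y : ℤ) (a b c : ℕ) : Prop :=
  ∃ (g : ℕ) (σ : Equiv.Perm (Fin 3)), 1 ≤ g ∧ (form d (S.f (σ 0)) x y).natAbs = g * a ∧
    (form d (S.f (σ 1)) x y).natAbs = g * b ∧ (form d (S.f (σ 2)) x y).natAbs = g * c

/-- the linear forms -/
def Fam.lin (S : Fam D) : Forms D := ⟨S.p, S.q, S.s, fun _ => 1, fun _ => 1⟩

theorem ind {S : Fam D} {d : ℕ} (h : S.IsIdentity d) : Ind S.lin :=
  ⟨h.indep, fun _ => one_ne_zero⟩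

theorem not_two' {S : Forms D} {x y : ℤ} (hxy : IsCoprime x y) {p : ℕ} (hb : ¬ p ∣ S.bad)
    {i j : Fin D} (hij : i ≠ j) (hi : (p : ℤ) ∣ S.L i x y) (hj : (p : ℤ) ∣ S.L j x y) : False :=
  hb ((Int.natCast_dvd.1 (dvd_det S hxy hi hj)).trans (det_dvd_bad S hij))

/-- the product of the radicals of the linear factors -/
theorem rad_prod {S : Fam D} {d : ℕ} (h : S.IsIdentity d) : ∃ B : ℕ, 0 < B ∧
    ∀ (x y : ℤ) (a b c : ℕ), IsCoprime x y → 0 < a → 0 < b → 0 < c → S.Member d x y a b c →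
    (∀ i, S.lin.L i x y ≠ 0) ∧ ∏ i, rad (S.lin.L i x y).natAbs ≤ B * rad (a * b * c) := by
  classical
  obtain ⟨R, hR, hcom⟩ := common (h.degree 0) (h.degree 1) h.coprime h.infty
  set bad : ℕ := S.lin.bad * R.natAbs with hbaddef
  have hbad : bad ≠ 0 := mul_ne_zero (bad_ne_zero (ind h)) (Int.natAbs_ne_zero.2 hR)
  refine ⟨bad ^ D, Nat.pos_of_ne_zero (pow_ne_zero _ hbad), fun x y a b c hxy ha hb hc hm => ?_⟩
  obtain ⟨g, σ, hg, h0, h1, h2⟩ := hm
  have hF : ∀ j, ∃ m, (m = a ∨ m = b ∨ m = c) ∧ (form d (S.f j) x y).natAbs = g * m := by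
    intro j
    obtain ⟨l, rfl⟩ := σ.surjective j
    fin_cases l
    · exact ⟨a, Or.inl rfl, h0⟩
    · exact ⟨b, Or.inr (Or.inl rfl), h1⟩
    · exact ⟨c, Or.inr (Or.inr rfl), h2⟩
  refine ⟨fun i hL => ?_, ?_⟩
  · obtain ⟨m, hm, hFm⟩ := hF (S.s i)
    have h3 : form d (S.f (S.s i)) x y = 0 := by
      have h4 := h.dvd i x y
      have h5 : S.p i * x + S.q i * y = 0 := hL
      rw [h5] at h4
      exact zero_dvd_iff.1 h4
    rw [h3, Int.natAbs_zero] at hFm
    have h6 : 0 < g * m := by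
      rcases hm with rfl | rfl | rfl <;> positivity
    omega
  set P : Fin D → Finset ℕ := fun i => (S.lin.L i x y).natAbs.primeFactors \ bad.primeFactors with hP
  have hPm : ∀ i, ∀ p ∈ P i, p.Prime ∧ (p : ℤ) ∣ S.lin.L i x y ∧ ¬ p ∣ bad := by
    intro i p hp
    rw [hP] at hp
    simp only [mem_sdiff, Nat.mem_primeFactors, not_and, ne_eq] at hp
    obtain ⟨⟨h3, h4, h5⟩, h6⟩ := hp
    refine ⟨h3, Int.natCast_dvd.2 h4, fun h7 => ?_⟩
    exact h6 h3 h7 hbad
  have hdisj : ∀ i ∈ (univ : Finset (Fin D)), ∀ j ∈ (univ : Finset (Fin D)), i ≠ j →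
      Disjoint (P i) (P j) := by
    intro i _ j _ hij
    rw [Finset.disjoint_left]
    intro p hp hp'
    exact not_two' hxy (fun h9 => (hPm i p hp).2.2 (Dvd.dvd.mul_right h9 _)) hij
      (hPm i p hp).2.1 (hPm j p hp').2.1
  have hsub : (univ : Finset (Fin D)).biUnion P ⊆ (a * b * c).primeFactors := by
    intro p hp
    obtain ⟨i, -, hpi⟩ := mem_biUnion.1 hp
    obtain ⟨hpr, hpL, hpb⟩ := hPm i p hpi
    have habc : a * b * c ≠ 0 := by positivity
    rw [Nat.mem_primeFactors]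
    refine ⟨hpr, ?_, habc⟩
    have hpF : (p : ℤ) ∣ form d (S.f (S.s i)) x y := hpL.trans (h.dvd i x y)
    obtain ⟨m, hm, hFm⟩ := hF (S.s i)
    have h3 : p ∣ g * m := by rw [← hFm]; exact Int.natCast_dvd.1 hpF
    rcases hpr.dvd_mul.1 h3 with h4 | h4
    · exfalso
      have h5 : ∀ j, (p : ℤ) ∣ form d (S.f j) x y := by
        intro j
        obtain ⟨m', -, hFm'⟩ := hF j
        rw [Int.natCast_dvd, hFm']
        exact Dvd.dvd.mul_right h4 _
      have h6 := hcom x y hxy p (h5 0) (h5 1)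
      exact hpb ((Int.natCast_dvd.1 h6).trans (Dvd.intro_left _ rfl))
    · rcases hm with rfl | rfl | rfl
      · exact Dvd.dvd.mul_right (Dvd.dvd.mul_right h4 _) _
      · exact Dvd.dvd.mul_right (Dvd.dvd.mul_left h4 _) _
      · exact Dvd.dvd.mul_left h4 _
  have h7 : ∏ i, ∏ p ∈ P i, p ≤ rad (a * b * c) := by
    rw [← prod_biUnion (fun i _ j _ hij => hdisj i (mem_univ _) j (mem_univ _) hij)]
    exact prod_le_prod_of_subset_of_one_le' hsub
      (fun p hp _ => (Nat.prime_of_mem_primeFactors hp).one_le)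
  have h8 : ∀ i, rad (S.lin.L i x y).natAbs ≤ bad * ∏ p ∈ P i, p := by
    intro i
    have h9 : (S.lin.L i x y).natAbs.primeFactors ⊆ bad.primeFactors ∪ P i := by
      intro p hp
      rw [mem_union]
      by_cases h10 : p ∈ bad.primeFactors
      · exact Or.inl h10
      · exact Or.inr (mem_sdiff.2 ⟨hp, h10⟩)
    have h11 : Disjoint bad.primeFactors (P i) := by
      rw [hP]
      exact disjoint_sdiff
    calc rad (S.lin.L i x y).natAbs ≤ ∏ p ∈ bad.primeFactors ∪ P i, p := by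
          refine prod_le_prod_of_subset_of_one_le' h9 (fun p hp _ => ?_)
          rcases mem_union.1 hp with hp | hp
          · exact (Nat.prime_of_mem_primeFactors hp).one_le
          · exact (hPm i p hp).1.one_le
      _ = rad bad * ∏ p ∈ P i, p := prod_union h11
      _ ≤ bad * ∏ p ∈ P i, p := Nat.mul_le_mul_right _ (rad_le hbad)
  calc ∏ i, rad (S.lin.L i x y).natAbs ≤ ∏ i : Fin D, (bad * ∏ p ∈ P i, p) :=
        prod_le_prod' fun i _ => h8 i
    _ = bad ^ D * ∏ i, ∏ p ∈ P i, p := by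
        rw [prod_mul_distrib, prod_const, card_univ, Fintype.card_fin]
    _ ≤ _ := Nat.mul_le_mul_left _ h7

/-- the points with an abc-triple of small radical -/
def Pts (S : Fam D) (d : ℕ) (E μ : ℝ) (N : ℕ) : Set (ℤ × ℤ) :=
  {z | IsCoprime z.1 z.2 ∧ z.1.natAbs ≤ N ∧ z.2.natAbs ≤ N ∧ ∃ a b c : ℕ, 0 < a ∧ 0 < b ∧
    a + b = c ∧ S.Member d z.1 z.2 a b c ∧ (rad (a * b * c) : ℝ) ≤ E * (c : ℝ) ^ μ}

theorem count_pts {S : Fam D} {d : ℕ} (h : S.IsIdentity d) (hd : 1 ≤ d) (hD : 3 ≤ D) {E μ : ℝ}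
    (hE : 0 < E) (hμ : 0 < μ) {ε : ℝ} (hε : 0 < ε) :
    ∃ C : ℝ, 0 < C ∧ ∀ N : ℕ, 1 ≤ N →
      ((Pts S d E μ N).ncard : ℝ) ≤ C * (N : ℝ) ^ (Fx (3 * ((d : ℝ) * μ) / (D : ℝ)) + ε) := by
  have hd' : (0 : ℝ) < d := by exact_mod_cast hd
  obtain ⟨B, hB, hrad⟩ := rad_prod h
  have hB' : (0 : ℝ) < B := by exact_mod_cast hB
  choose K hK0 hK using fun j : Fin 3 => form_le d (S.f j)
  set K' : ℝ := K 0 + K 1 + K 2 with hK'
  have hK'0 : 0 < K' := by have := hK0 0; have := hK0 1; have := hK0 2; positivity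
  have hKle : ∀ j, K j ≤ K' := by
    intro j
    have h0 := hK0 0
    have h1 := hK0 1
    have h2 := hK0 2
    fin_cases j
    · change K 0 ≤ K'; linarith
    · change K 1 ≤ K'; linarith
    · change K 2 ≤ K'; linarith
  obtain ⟨C, hC, hcount⟩ := count_core (ind h) hD (K := (B : ℝ) * (E * K' ^ μ)) (e := (d : ℝ) * μ)
    (by positivity) (by positivity) hε
  refine ⟨C, hC, fun N hN => le_trans ?_ (hcount N hN)⟩
  refine Nat.cast_le.2 (Set.ncard_le_ncard ?_ (sm_finite _ _ _ _))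
  rintro ⟨x, y⟩ ⟨hxy, hx, hy, a, b, c, ha, hb, hc, hm, hr⟩
  simp only at hxy hx hy hm
  obtain ⟨hL, hp⟩ := hrad x y a b c hxy ha hb (by omega) hm
  refine ⟨hxy, hx, hy, hL, ?_⟩
  obtain ⟨g, σ, hg, h0, h1, h2⟩ := hm
  set M : ℕ := max x.natAbs y.natAbs with hM
  have h3 : (c : ℝ) ≤ K' * (M : ℝ) ^ (d : ℝ) := by
    rw [Real.rpow_natCast]
    have h4 : c ≤ (form d (S.f (σ 2)) x y).natAbs := by
      rw [h2]; exact Nat.le_mul_of_pos_left _ hg
    calc (c : ℝ) ≤ ((form d (S.f (σ 2)) x y).natAbs : ℝ) := by exact_mod_cast h4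
      _ ≤ K (σ 2) * (M : ℝ) ^ d := hK (σ 2) x y
      _ ≤ K' * (M : ℝ) ^ d := mul_le_mul_of_nonneg_right (hKle _) (by positivity)
  have h4 : (c : ℝ) ^ μ ≤ K' ^ μ * (M : ℝ) ^ ((d : ℝ) * μ) := by
    calc (c : ℝ) ^ μ ≤ (K' * (M : ℝ) ^ (d : ℝ)) ^ μ :=
          Real.rpow_le_rpow (Nat.cast_nonneg _) h3 hμ.le
      _ = _ := by
          rw [Real.mul_rpow (by positivity) (by positivity), ← Real.rpow_mul (Nat.cast_nonneg _)]
  calc ((∏ i, rad (S.lin.L i x y).natAbs : ℕ) : ℝ) ≤ (B : ℝ) * (rad (a * b * c) : ℝ) := by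
        exact_mod_cast hp
    _ ≤ (B : ℝ) * (E * (c : ℝ) ^ μ) := by gcongr
    _ ≤ (B : ℝ) * (E * (K' ^ μ * (M : ℝ) ^ ((d : ℝ) * μ))) := by gcongr
    _ = _ := by ring

end Pool.Agent.NH51.PF
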